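import Pool.Agent.Helper20.GT.Stm

/-! Project GT, package FIN: the set in `n` dimensions -/

set_option autoImplicit false

open Finset Filter Topology
open scoped Classical

namespace Pool.Agent.Helper83.GT

open Pool.Agent.Helper20.GT

theorem fin : S_FIN := by
  intro hMS Q hQ hN
  obtain ⟨θ0, C0, hθ0, hθ1, hC0, hQb, x, hxb, hx⟩ := hMS Q hQ
  set ε : ℝ := (1 - θ0) / 2 with hε
  have hε0 : 0 < ε := by rw [hε]; linarith
  obtain ⟨C1, hC1, hF⟩ := hN ε hε0
  refine ⟨(1 + θ0) / 2, by linarith, by linarith, fun n => ?_⟩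
  set θ : ℝ := (1 + θ0) / 2 with hθ
  set B : Set (EuclideanSpace ℝ (Fin n)) :=
    {y | ∃ r : EuclideanSpace ℝ (Fin n), (∀ i, r i ∈ Set.Icc (0 : ℝ) 1) ∧ ∃ q ∈ Q,
      ∀ i, y i = x (r i) + q * r i} with hB
  have hcov : ∃ C : ℝ, 0 < C ∧ ∀ δ : ℝ, 0 < δ → δ ≤ 1 → ∃ P : Finset (EuclideanSpace ℝ (Fin n)),
      (P.card : ℝ) ≤ C * δ ^ (-(θ * n)) ∧ B ⊆ ⋃ y ∈ P, Metric.ball y δ := by
    rcases Nat.eq_zero_or_pos n with rfl | hn
    · refine ⟨1, one_pos, fun δ hδ _ => ⟨{0}, ?_, ?_⟩⟩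
      · simp
      · intro y _
        have : y = 0 := Subsingleton.elim _ _
        simp [this, hδ]
    have hn1 : (1 : ℝ) ≤ n := by exact_mod_cast hn
    set K : ℝ := 4 * (n + 1) with hK
    have hK0 : 0 < K := by rw [hK]; positivity
    have hK1 : 1 ≤ K := by rw [hK]; linarith
    refine ⟨C1 * C0 ^ n * K ^ (θ * n), by positivity, fun δ hδ hδ1 => ?_⟩
    set δ0 : ℝ := δ / K with hδ0
    have hδ00 : 0 < δ0 := div_pos hδ hK0
    have hδ01 : δ0 ≤ 1 := by
      rw [hδ0, div_le_one hK0]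
      linarith
    obtain ⟨F, hFc, hFQ, hFn⟩ := hF δ0 hδ00 hδ01
    have hPP : ∀ p : ℝ, ∃ P : Finset ℝ, p ∈ Q → (P.card : ℝ) ≤ C0 * δ0 ^ (-θ0) ∧
        ∀ r ∈ Set.Icc (0 : ℝ) 1, ∃ s ∈ P, |x r + p * r - s| ≤ δ0 := by
      intro p
      by_cases hp : p ∈ Q
      · obtain ⟨P, h1, h2⟩ := hx p hp δ0 hδ00 hδ01
        exact ⟨P, fun _ => ⟨h1, h2⟩⟩
      · exact ⟨∅, fun h => absurd h hp⟩
    choose PP hPP using hPP
    set P : Finset (EuclideanSpace ℝ (Fin n)) :=
      F.biUnion fun p => (Fintype.piFinset fun _ : Fin n => PP p).image (WithLp.toLp 2) with hP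
    refine ⟨P, ?_, ?_⟩
    · have h1 : (P.card : ℝ) ≤ ∑ p ∈ F, (C0 * δ0 ^ (-θ0)) ^ n := by
        have h2 : P.card ≤ ∑ p ∈ F, (PP p).card ^ n := by
          refine card_biUnion_le.trans (Finset.sum_le_sum fun p _ => ?_)
          refine card_image_le.trans ?_
          rw [Fintype.card_piFinset]
          simp
        have h3 : (P.card : ℝ) ≤ ∑ p ∈ F, ((PP p).card : ℝ) ^ n := by exact_mod_cast h2
        refine h3.trans (Finset.sum_le_sum fun p hp => ?_)
        exact pow_le_pow_left₀ (Nat.cast_nonneg _) (hPP p (hFQ hp)).1 n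
      rw [Finset.sum_const, nsmul_eq_mul] at h1
      refine h1.trans ?_
      have e1 : (C0 * δ0 ^ (-θ0)) ^ n = C0 ^ n * δ0 ^ (-(θ0 * n)) := by
        rw [mul_pow, ← Real.rpow_natCast (δ0 ^ (-θ0)) n, ← Real.rpow_mul hδ00.le, neg_mul]
      rw [e1]
      have h4 : δ0 ^ (-ε) * δ0 ^ (-(θ0 * n)) ≤ δ0 ^ (-(θ * n)) := by
        rw [← Real.rpow_add hδ00]
        refine Real.rpow_le_rpow_of_exponent_ge hδ00 hδ01 ?_
        rw [hθ, hε]
        nlinarith
      have h5 : δ0 ^ (-(θ * n)) = K ^ (θ * n) * δ ^ (-(θ * n)) := by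
        rw [hδ0, Real.div_rpow hδ.le hK0.le, Real.rpow_neg hK0.le, div_inv_eq_mul, mul_comm]
      calc (F.card : ℝ) * (C0 ^ n * δ0 ^ (-(θ0 * n)))
          ≤ (C1 * δ0 ^ (-ε)) * (C0 ^ n * δ0 ^ (-(θ0 * n))) :=
            mul_le_mul_of_nonneg_right hFc (by positivity)
        _ = C1 * C0 ^ n * (δ0 ^ (-ε) * δ0 ^ (-(θ0 * n))) := by ring
        _ ≤ C1 * C0 ^ n * δ0 ^ (-(θ * n)) := mul_le_mul_of_nonneg_left h4 (by positivity)
        _ = C1 * C0 ^ n * K ^ (θ * n) * δ ^ (-(θ * n)) := by rw [h5]; ring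
    · rintro y ⟨r, hr, q, hq, hy⟩
      obtain ⟨p, hp, hqp⟩ := hFn q hq
      have hs : ∀ i, ∃ s ∈ PP p, |x (r i) + p * r i - s| ≤ δ0 := fun i =>
        (hPP p (hFQ hp)).2 (r i) (hr i)
      choose s hsP hs using hs
      simp only [Set.mem_iUnion]
      refine ⟨WithLp.toLp 2 s, ?_, ?_⟩
      · rw [hP, Finset.mem_biUnion]
        refine ⟨p, hp, Finset.mem_image.2 ⟨s, ?_, rfl⟩⟩
        rw [Fintype.mem_piFinset]
        exact hsP
      · rw [Metric.mem_ball, EuclideanSpace.dist_eq, Real.sqrt_lt' hδ]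
        have h1 : ∀ i, dist (y i) ((WithLp.toLp 2 s : EuclideanSpace ℝ (Fin n)) i) ^ 2 ≤
            (2 * δ0) ^ 2 := by
          intro i
          refine pow_le_pow_left₀ dist_nonneg ?_ 2
          show dist (y i) (s i) ≤ 2 * δ0
          rw [Real.dist_eq, hy i]
          have e2 : x (r i) + q * r i - s i = (x (r i) + p * r i - s i) + (q - p) * r i := by ring
          rw [e2]
          have h3 : |(q - p) * r i| ≤ δ0 := by
            rw [abs_mul, abs_of_nonneg (hr i).1]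
            calc |q - p| * r i ≤ |q - p| * 1 :=
                  mul_le_mul_of_nonneg_left (hr i).2 (abs_nonneg _)
              _ ≤ δ0 := by rw [mul_one]; exact hqp
          refine (abs_add_le _ _).trans ?_
          have := hs i
          linarith
        refine lt_of_le_of_lt (Finset.sum_le_sum fun i _ => h1 i) ?_
        rw [Finset.sum_const, Finset.card_univ, Fintype.card_fin, nsmul_eq_mul]
        have e3 : δ = K * δ0 := by rw [hδ0]; field_simp
        rw [e3, hK]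
        have h4 : 0 < δ0 ^ 2 := by positivity
        nlinarith
  refine ⟨B, ?_, ?_, hcov⟩
  · obtain ⟨C, _, h⟩ := hcov
    obtain ⟨P, -, hP⟩ := h 1 one_pos le_rfl
    refine Bornology.IsBounded.subset ?_ hP
    rw [Bornology.isBounded_biUnion_finset]
    exact fun y _ => Metric.isBounded_ball
  · intro r hr
    refine ⟨WithLp.toLp 2 fun i => x (r i), fun q hq => ⟨r, hr, q, hq, fun i => ?_⟩⟩
    simp

end Pool.Agent.Helper83.GT
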